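import Pool.Agent.Y600.FB.Defs

/-!
# Statements of the parts
-/

namespace Pool.Agent.Y600.FB

open Pool.Agent.NPC Pool.Agent.H593R3.FBC

/-- FB-SEARCH, first part -/
def S_PRIM : Prop := PrimrecRel G3

/-- FB-SEARCH, second part -/
def S_EX : Prop := PNeNP → ∀ x, ∃ N, G3 x N

/-- FB-NOTLE -/
def S_NOTLE : Prop := ∀ m m' : Mach, m.OK → m'.OK →
  (∀ k : ℕ, ∃ x N : ℕ, k ≤ x ∧ G3 x N ∧
    ∀ n, x ≤ n → n < N → m.flag n = true ∧ m'.flag n = false) →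
  ¬ Reduces (lang (CSP (tau m) (bigR m))) (lang (CSP (tau m') (bigR m')))

/-- FB-CLOCK -/
def S_CLOCK : Prop := ∀ G : ℕ → ℕ → Prop, PrimrecRel G → (∀ x, ∃ N, G x N) →
  ∃ (P : List FIns) (ph : ℕ → ℕ),
    (∀ p, ∃ x N, p ≤ x ∧ G x N ∧ ∀ n, x ≤ n → n < N → ph n = p + 1) ∧
    ∀ K, 0 < K → ∀ S : ℕ → Bool, (machK P K S).OK ∧ ∀ n, (machK P K S).flag n = S (ph n % K)

/-- FB-POS -/
def S_POS : Prop := ∀ (I : Type) [Countable I] [PartialOrder I],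
  ∃ (K : I → ℕ) (S : I → ℕ → Bool), (∀ i, 0 < K i) ∧
    (∀ i j, i ≤ j → ∀ p, S i (p % K i) = true → S j (p % K j) = true) ∧
    ∀ i j, ¬ i ≤ j → ∀ k, ∃ p, k ≤ p ∧ S i ((p + 1) % K i) = true ∧ S j ((p + 1) % K j) = false

/-- FB-UI -/
def S_UI : Prop := ∀ m : Mach, m.OK → ∀ (T : ℕ) (s : List Bool) (l : List Loc),
  CSP (tau m) (bigR m) (uI T s l) ↔
    ∀ c ∈ l, ∃ ξ : ℕ → Bool, (∀ i ∈ c.2.1, i ≤ T → ξ i = true) ∧
      ∀ n ∈ c.1, n ≤ T → s.getD n false = true → m.flag n = true → ClOK ξ c n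

/-- FB-LE, first part -/
def S_PUI : Prop :=
  Poly (fun p : (List Unit × List Bool) × List Loc => uI p.1.1.length p.1.2 p.2)

/-- FB-LE, second part -/
def S_LE : Prop := S_UI → ∀ m m' : Mach, m.OK → m'.OK →
  (∀ n, m.flag n = true → m'.flag n = true) →
  Reduces (lang (CSP (tau m) (bigR m))) (lang (CSP (tau m') (bigR m')))

end Pool.Agent.Y600.FB
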