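import Pool.Agent.H593R3.FBC.Prog

/-!
# Many constraint satisfaction problems of finitely bounded structures: definitions

The search predicate `G3`, machines `machK` with `K` modes, and the statements of the parts.
-/

namespace Pool.Agent.Y600.FB

open Pool.Agent.NPC Pool.Agent.H593R3.FBC
open Pool.Agent.H639R2.NTP.C5 (allL mem_allL)

/-- A formula (with a padding) whose instance `gI` is mapped by the function number `z` to a set
of clauses with all depths below `N`, on which, with the flags `s` followed by zeros, the function
fails to be a reduction from satisfiability. -/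
def W3 (x : ℕ) (z s w : List Bool) (N : ℕ) : Prop :=
  bdB (decF w).1 = true ∧ x ≤ nn (decF w) ∧ nn (decF w) < N ∧
    nsB (FU z x (bits (gI (decF w)))) (List.replicate N true) = true ∧
    (KS s (FU z x (bits (gI (decF w)))) ↔
      ¬ ∃ c ∈ allL (3 * (decF w).1.length), chkS (decF w).1 c = true)

/-- The search predicate. -/
def G3 (x N : ℕ) : Prop :=
  ∀ j ∈ List.range x, ∀ s ∈ allL x, ∃ v ∈ List.range N, W3 x (str j) s (str v) N

/-- The machine with `K` modes which runs the program `P` again and again; the mode changes from
`b` to `b + 1` modulo `K` at every new start. Labels are `K * line + mode`; the machine is active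
in the modes in `S`. -/
def machK (P : List FIns) (K : ℕ) (S : ℕ → Bool) : Mach where
  ins q := match P[q / K]? with
    | some (.inc r t) => .inc r (K * t + q % K)
    | some (.dec r t t') => .dec r (K * t + q % K) (K * t' + q % K)
    | some (.jmp t) => .jmp (K * t + q % K)
    | none => .rst ((q % K + 1) % K)
  nQ := K * bdP P
  nK := bdP P
  act q := S (q % K)

/-- The facts of the component number `a` with root `a * (T + 1)`. -/
def cf (T : ℕ) (s : List Bool) (a : ℕ) (c : Loc) : List (ℕ × List ℕ) :=
  [(0, [a * (T + 1)])] ++ ((List.range T).map (fun i => (2, [a * (T + 1) + i, a * (T + 1) + i + 1])) ++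
  (c.1.flatMap (fun n => if n ≤ T ∧ s.getD n false = true then [(1, [a * (T + 1) + n])] else []) ++
  (c.2.2.1.flatMap (fun p => if p.1 ≤ T ∧ p.2.1 ≤ T ∧ p.2.2 ≤ T then
    [(3, [a * (T + 1) + p.1, a * (T + 1) + p.2.1, a * (T + 1) + p.2.2])] else []) ++
  (c.2.2.2.flatMap (fun p => if p.1 ≤ T ∧ p.2 ≤ T then
    [(4, [a * (T + 1) + p.1, a * (T + 1) + p.2])] else []) ++
  c.2.1.flatMap (fun i => if i ≤ T then [(6, [a * (T + 1), a * (T + 1) + i])] else [])))))

/-- The structure consisting of disjoint chains of length `T + 1`, one for each component. -/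
def uI (T : ℕ) (s : List Bool) (l : List Loc) : Inst :=
  (List.replicate ((T + 1) * l.length) (),
    l.zipIdx.flatMap (fun q => cf T s q.2 q.1))

end Pool.Agent.Y600.FB
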