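import Pool.Agent.Y600.FB.Stm

/-!
# Every countable partial order embeds into the NP-intermediate CSPs of finitely bounded structures
-/

namespace Pool.Agent.Y600.FB

open Pool.Agent.NPC Pool.Agent.H593R3.FBC Pool.Agent.H660R2.NX

/-- The instance without elements and facts. -/
def yesI : Inst := ([], [])

/-- An instance which is not well formed. -/
def noI : Inst := ([], [(0, [0])])

theorem csp_yes (m : Mach) : CSP (tau m) (bigR m) yesI := by
  refine ⟨fun p hp => by simp [yesI] at hp, fun i => absurd i.2 (by simp [yesI]),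
    fun i l h => by simp [yesI] at h⟩

theorem csp_no (m : Mach) : ¬ CSP (tau m) (bigR m) noI := by
  rintro ⟨h, _⟩
  have := (h (0, [0]) (by simp [noI])).2 0 (by simp)
  simp [noI] at this

/-- A problem in `P` reduces to every nontrivial problem. -/
theorem reduces_of_inP {L L' : Set (List Bool)} (h : InP L) {a b : List Bool} (ha : a ∈ L')
    (hb : b ∉ L') : Reduces L L' := by
  obtain ⟨V, hV, hV'⟩ := h
  have h1 : Poly (fun w : List Bool => if w = [true] then a else b) := by fun_prop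
  refine ⟨fun x => if V x = [true] then a else b,
    H642R2.TMSim.polyTime_comp (polyTime_of_poly' h1) hV, fun x => ?_⟩
  rw [hV' x]
  by_cases hx : V x = [true] <;> simp [hx, ha, hb]

section

variable (hPRIM : S_PRIM) (hEX : S_EX) (hNL : S_NOTLE) (hCL : S_CLOCK) (hPOS : S_POS)
  (hUI : S_UI) (hLE : S_LE)

include hPRIM hEX hNL hCL hPOS hUI hLE

theorem family (hP : PNeNP) (I : Type) [Countable I] [PartialOrder I] :
    ∃ m : I → Mach, (∀ i, (m i).OK) ∧
      ∀ i j, Reduces (lang (CSP (tau (m i)) (bigR (m i)))) (lang (CSP (tau (m j)) (bigR (m j)))) ↔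
        i ≤ j := by
  obtain ⟨P, ph, h1, h2⟩ := hCL G3 hPRIM (hEX hP)
  obtain ⟨K, S, hK, hS1, hS2⟩ := hPOS I
  have hok : ∀ i, (machK P (K i) (S i)).OK := fun i => (h2 (K i) (hK i) (S i)).1
  have hfl : ∀ i n, (machK P (K i) (S i)).flag n = S i (ph n % K i) :=
    fun i n => (h2 (K i) (hK i) (S i)).2 n
  refine ⟨fun i => machK P (K i) (S i), hok, fun i j => ⟨fun hr => ?_, fun hij => ?_⟩⟩
  · by_contra hij
    refine hNL _ _ (hok i) (hok j) (fun k => ?_) hr
    obtain ⟨p, hp, h3, h4⟩ := hS2 i j hij k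
    obtain ⟨x, N, hx, hG, hw⟩ := h1 p
    refine ⟨x, N, hp.trans hx, hG, fun n hn hnN => ?_⟩
    rw [hfl, hfl, hw n hn hnN]
    exact ⟨h3, h4⟩
  · refine hLE hUI _ _ (hok i) (hok j) fun n hn => ?_
    rw [hfl] at hn ⊢
    exact hS1 i j hij _ hn

theorem embeds (hP : PNeNP) (I : Type) [Countable I] [PartialOrder I] :
    ∃ (τ : I → List ℕ) (A : I → Type) (r : ∀ i, Rels (A i)),
      (∀ i, (∀ a ∈ τ i, 1 ≤ a ∧ a ≤ 3) ∧ Countable (A i) ∧ FinitelyBounded (τ i) (r i) ∧
        NPIntermediate (CSP (τ i) (r i))) ∧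
      ∀ i j, Reduces (lang (CSP (τ i) (r i))) (lang (CSP (τ j) (r j))) ↔ i ≤ j := by
  have : Countable (WithBot (WithTop I)) := inferInstanceAs (Countable (Option (Option I)))
  obtain ⟨m, hm, hr⟩ := family hPRIM hEX hNL hCL hPOS hUI hLE hP (WithBot (WithTop I))
  let e : I → WithBot (WithTop I) := fun i => ((i : WithTop I) : WithBot (WithTop I))
  refine ⟨fun i => tau (m (e i)), fun i => Dom (m (e i)), fun i => bigR (m (e i)),
    fun i => ⟨fun a ha => ?_, inferInstance, finitelyBounded (m (e i)), csp_inNP (hm _), ?_, ?_⟩,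
    fun i j => ?_⟩
  · obtain ⟨k, hk⟩ := List.getElem?_of_mem ha
    exact tau_bd hk
  · intro hp
    have h1 : Reduces (lang (CSP (tau (m (e i))) (bigR (m (e i)))))
        (lang (CSP (tau (m ⊥)) (bigR (m ⊥)))) :=
      reduces_of_inP hp (a := bits yesI) (b := bits noI) ((bits_mem_lang).2 (csp_yes _))
        (fun h => csp_no _ ((bits_mem_lang).1 h))
    rw [hr] at h1
    have h2 : e i = ⊥ := le_bot_iff.1 h1
    exact WithBot.coe_ne_bot h2
  · intro hp
    have h1 : Reduces (lang (CSP (tau (m ((⊤ : WithTop I) : WithBot (WithTop I))))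
        (bigR (m ((⊤ : WithTop I) : WithBot (WithTop I))))))
        (lang (CSP (tau (m (e i))) (bigR (m (e i))))) := hp _ (csp_inNP (hm _))
    rw [hr] at h1
    have h2 : (⊤ : WithTop I) ≤ (i : WithTop I) := WithBot.coe_le_coe.1 h1
    exact WithTop.coe_ne_top (top_le_iff.1 h2)
  · rw [hr]
    change ((i : WithTop I) : WithBot (WithTop I)) ≤ ((j : WithTop I) : WithBot (WithTop I)) ↔ _
    rw [WithBot.coe_le_coe, WithTop.coe_le_coe]

/-- The full statement. -/
theorem full : (∃ L : Set (List Bool), InNP L ∧ ¬ InP L) ↔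
    ∀ (I : Type) [Countable I] [PartialOrder I],
      ∃ (τ : I → List ℕ) (A : I → Type) (r : ∀ i, Rels (A i)),
        (∀ i, (∀ a ∈ τ i, 1 ≤ a ∧ a ≤ 3) ∧ Countable (A i) ∧ FinitelyBounded (τ i) (r i) ∧
          NPIntermediate (CSP (τ i) (r i))) ∧
        ∀ i j, Reduces (lang (CSP (τ i) (r i))) (lang (CSP (τ j) (r j))) ↔ i ≤ j := by
  constructor
  · intro hP I _ _
    exact embeds hPRIM hEX hNL hCL hPOS hUI hLE hP I
  · intro h
    obtain ⟨τ, A, r, h1, _⟩ := h Unit
    obtain ⟨_, _, _, h2, h3, _⟩ := h1 ()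
    exact ⟨lang (CSP (τ ()) (r ())), h2, h3⟩

end

end Pool.Agent.Y600.FB
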