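import Pool.Agent.Y600.FB.Stm
import Pool.Agent.H620R2.Gauge.Defs

/-!
# Statements of the parts, for polynomial-time Turing reductions
-/

namespace Pool.Agent.Y600.FB

open Pool.Agent.NPC Pool.Agent.H593R3.FBC
open Pool.Agent.H639R2.NTP.C5 (allL mem_allL)

open Classical in
/-- One round of the oracle algorithm number `z` on input `y`, after the answers `a`: a question
is answered with the flags `s` followed by zeros. -/
noncomputable def stT (z : List Bool) (k : ℕ) (s y a : List Bool) : List Bool :=
  if (FU z k (pairBits y a)).head? = some false then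
    a ++ [decide (KS s (FU z k (pairBits y a)).tail)] else a

/-- The answers after `i` rounds. -/
noncomputable def anT (z : List Bool) (k : ℕ) (s y : List Bool) (i : ℕ) : List Bool :=
  (stT z k s y)^[i] []

/-- A formula (with a padding) on whose instance `gI` the oracle algorithm number `z` asks only
questions about sets of clauses with all depths below `N` and, with the flags `s` followed by
zeros, fails to decide satisfiability. -/
def W4 (x : ℕ) (z s w : List Bool) (N : ℕ) : Prop :=
  bdB (decF w).1 = true ∧ x ≤ nn (decF w) ∧ nn (decF w) < N ∧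
    (∀ i ∈ List.range ((bits (gI (decF w))).length ^ x + x),
      nsB (FU z x (pairBits (bits (gI (decF w))) (anT z x s (bits (gI (decF w))) i))).tail
        (List.replicate N true) = true) ∧
    (FU z x (pairBits (bits (gI (decF w))) (anT z x s (bits (gI (decF w)))
        ((bits (gI (decF w))).length ^ x + x))) = [true, true] ↔
      ¬ ∃ c ∈ allL (3 * (decF w).1.length), chkS (decF w).1 c = true)

/-- The search predicate. -/
def G4 (x N : ℕ) : Prop :=
  ∀ j ∈ List.range x, ∀ s ∈ allL x, ∃ v ∈ List.range N, W4 x (str j) s (str v) N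

open Classical in
/-- The characteristic function of a language. -/
noncomputable def chi (L : Set (List Bool)) : Pool.Agent.H620R2.Gauge.Oracle :=
  fun q => decide (q ∈ L)

/-- FB-PRIM4 -/
def S_PRIM4 : Prop := PrimrecRel G4

/-- FB-EX4 -/
def S_EX4 : Prop := PNeNP → ∀ x, ∃ N, G4 x N

/-- FB-NOT4 -/
def S_NOT4 : Prop := ∀ m m' : Mach, m.OK → m'.OK →
  (∀ k : ℕ, ∃ x N : ℕ, k ≤ x ∧ G4 x N ∧
    ∀ n, x ≤ n → n < N → m.flag n = true ∧ m'.flag n = false) →
  ¬ Pool.Agent.H620R2.Gauge.IsP (chi (lang (CSP (tau m') (bigR m'))))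
    (lang (CSP (tau m) (bigR m)))

/-- FB-RED4 -/
def S_RED4 : Prop := ∀ L L' : Set (List Bool), Reduces L L' →
  Pool.Agent.H620R2.Gauge.IsP (chi L') L

/-- FB-SIM4 -/
def S_SIM4 : Prop := ∀ L L' : Set (List Bool), InP L' →
  Pool.Agent.H620R2.Gauge.IsP (chi L') L → InP L

end Pool.Agent.Y600.FB
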