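import Pool.Agent.Y600.FB.Main
import Pool.Agent.Y600.FB.Stm4

/-!
# The embedding theorem with Turing reductions
-/

namespace Pool.Agent.Y600.FB

open Pool.Agent.NPC Pool.Agent.H593R3.FBC Pool.Agent.H660R2.NX
open Pool.Agent.H620R2.Gauge (IsP)

section

variable (hPRIM : S_PRIM4) (hEX : S_EX4) (hNL : S_NOT4) (hRED : S_RED4) (hSIM : S_SIM4)
  (hCL : S_CLOCK) (hPOS : S_POS) (hUI : S_UI) (hLE : S_LE)

include hPRIM hEX hNL hCL hPOS hUI hLE

theorem family4 (hP : PNeNP) (I : Type) [Countable I] [PartialOrder I] :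
    ∃ m : I → Mach, (∀ i, (m i).OK) ∧
      ∀ i j, (i ≤ j → Reduces (lang (CSP (tau (m i)) (bigR (m i))))
          (lang (CSP (tau (m j)) (bigR (m j))))) ∧
        (¬ i ≤ j → ¬ IsP (chi (lang (CSP (tau (m j)) (bigR (m j)))))
          (lang (CSP (tau (m i)) (bigR (m i))))) := by
  obtain ⟨P, ph, h1, h2⟩ := hCL G4 hPRIM (hEX hP)
  obtain ⟨K, S, hK, hS1, hS2⟩ := hPOS I
  have hok : ∀ i, (machK P (K i) (S i)).OK := fun i => (h2 (K i) (hK i) (S i)).1
  have hfl : ∀ i n, (machK P (K i) (S i)).flag n = S i (ph n % K i) :=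
    fun i n => (h2 (K i) (hK i) (S i)).2 n
  refine ⟨fun i => machK P (K i) (S i), hok, fun i j => ⟨fun hij => ?_, fun hij => ?_⟩⟩
  · refine hLE hUI _ _ (hok i) (hok j) fun n hn => ?_
    rw [hfl] at hn ⊢
    exact hS1 i j hij _ hn
  · refine hNL _ _ (hok i) (hok j) (fun k => ?_)
    obtain ⟨p, hp, h3, h4⟩ := hS2 i j hij k
    obtain ⟨x, N, hx, hG, hw⟩ := h1 p
    refine ⟨x, N, hp.trans hx, hG, fun n hn hnN => ?_⟩
    rw [hfl, hfl, hw n hn hnN]
    exact ⟨h3, h4⟩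

include hRED

theorem embeds4 (hP : PNeNP) (I : Type) [Countable I] [PartialOrder I] :
    ∃ (τ : I → List ℕ) (A : I → Type) (r : ∀ i, Rels (A i)),
      (∀ i, (∀ a ∈ τ i, 1 ≤ a ∧ a ≤ 3) ∧ Countable (A i) ∧ FinitelyBounded (τ i) (r i) ∧
        NPIntermediate (CSP (τ i) (r i)) ∧
        ∃ L, InNP L ∧ ¬ IsP (chi (lang (CSP (τ i) (r i)))) L) ∧
      ∀ i j, (i ≤ j → Reduces (lang (CSP (τ i) (r i))) (lang (CSP (τ j) (r j)))) ∧
        (¬ i ≤ j → ¬ IsP (chi (lang (CSP (τ j) (r j)))) (lang (CSP (τ i) (r i)))) := by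
  have : Countable (WithBot (WithTop I)) := inferInstanceAs (Countable (Option (Option I)))
  obtain ⟨m, hm, hr⟩ := family4 hPRIM hEX hNL hCL hPOS hUI hLE hP (WithBot (WithTop I))
  let e : I → WithBot (WithTop I) := fun i => ((i : WithTop I) : WithBot (WithTop I))
  have htop : ∀ i : I, ¬ IsP (chi (lang (CSP (tau (m (e i))) (bigR (m (e i))))))
      (lang (CSP (tau (m ((⊤ : WithTop I) : WithBot (WithTop I))))
        (bigR (m ((⊤ : WithTop I) : WithBot (WithTop I)))))) := by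
    intro i
    refine (hr _ _).2 fun h1 => ?_
    have h2 : (⊤ : WithTop I) ≤ (i : WithTop I) := WithBot.coe_le_coe.1 h1
    exact WithTop.coe_ne_top (top_le_iff.1 h2)
  refine ⟨fun i => tau (m (e i)), fun i => Dom (m (e i)), fun i => bigR (m (e i)),
    fun i => ⟨fun a ha => ?_, inferInstance, finitelyBounded (m (e i)),
      ⟨csp_inNP (hm _), ?_, ?_⟩, ?_⟩, fun i j => ?_⟩
  · obtain ⟨k, hk⟩ := List.getElem?_of_mem ha
    exact tau_bd hk
  · intro hp
    have h1 : Reduces (lang (CSP (tau (m (e i))) (bigR (m (e i)))))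
        (lang (CSP (tau (m ⊥)) (bigR (m ⊥)))) :=
      reduces_of_inP hp (a := bits yesI) (b := bits noI) ((bits_mem_lang).2 (csp_yes _))
        (fun h => csp_no _ ((bits_mem_lang).1 h))
    refine (hr (e i) ⊥).2 (fun h => ?_) (hRED _ _ h1)
    have h2 : e i = ⊥ := le_bot_iff.1 h
    exact WithBot.coe_ne_bot h2
  · intro hp
    exact htop i (hRED _ _ (hp _ (csp_inNP (hm _))))
  · exact ⟨_, csp_inNP (hm _), htop i⟩
  · have h3 : e i ≤ e j ↔ i ≤ j := by
      change ((i : WithTop I) : WithBot (WithTop I)) ≤ ((j : WithTop I) : WithBot (WithTop I)) ↔ _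
      rw [WithBot.coe_le_coe, WithTop.coe_le_coe]
    have h4 := hr (e i) (e j)
    rw [h3] at h4
    exact h4

/-- The full statement. -/
theorem full4 : (∃ L : Set (List Bool), InNP L ∧ ¬ InP L) ↔
    ∀ (I : Type) [Countable I] [PartialOrder I],
      ∃ (τ : I → List ℕ) (A : I → Type) (r : ∀ i, Rels (A i)),
        (∀ i, (∀ a ∈ τ i, 1 ≤ a ∧ a ≤ 3) ∧ Countable (A i) ∧ FinitelyBounded (τ i) (r i) ∧
          NPIntermediate (CSP (τ i) (r i)) ∧
          ∃ L, InNP L ∧ ¬ IsP (chi (lang (CSP (τ i) (r i)))) L) ∧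
        ∀ i j, (i ≤ j → Reduces (lang (CSP (τ i) (r i))) (lang (CSP (τ j) (r j)))) ∧
          (¬ i ≤ j → ¬ IsP (chi (lang (CSP (τ j) (r j)))) (lang (CSP (τ i) (r i)))) := by
  constructor
  · intro hP I _ _
    exact embeds4 hPRIM hEX hNL hRED hCL hPOS hUI hLE hP I
  · intro h
    obtain ⟨τ, A, r, h1, _⟩ := h Unit
    obtain ⟨_, _, _, ⟨h2, h3, _⟩, _⟩ := h1 ()
    exact ⟨lang (CSP (τ ()) (r ())), h2, h3⟩

end

end Pool.Agent.Y600.FB
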